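import Mathlib

/-!
# Dilworth's theorem for finite families in a partial order
-/

set_option autoImplicit false

namespace Pool.Agent.Work.MP_959bfa_co

open Finset

variable {α : Type*} [PartialOrder α] [DecidableEq α]

/-- The finite set `S` is an antichain. -/
def Anti (S : Finset α) : Prop := ∀ a ∈ S, ∀ b ∈ S, a ≤ b → a = b

/-- The colouring `c` splits `F` into `m` chains. -/
def ChainCol (F : Finset α) (m : ℕ) (c : α → ℕ) : Prop :=
  (∀ a ∈ F, c a < m) ∧ ∀ a ∈ F, ∀ b ∈ F, c a = c b → a ≤ b ∨ b ≤ a

theorem Anti.subset {S T : Finset α} (h : Anti T) (hST : S ⊆ T) : Anti S :=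
  fun a ha b hb hab => h a (hST ha) b (hST hb) hab

/-- An antichain of full size meets every colour class. -/
theorem exists_mem_color {F S : Finset α} {m : ℕ} {c : α → ℕ} (hc : ChainCol F m c)
    (hS : S ⊆ F) (hanti : Anti S) (hcard : S.card = m) {i : ℕ} (hi : i < m) :
    ∃ x ∈ S, c x = i := by
  have hinj : Set.InjOn c (S : Set α) := by
    intro x hx y hy hxy
    rcases hc.2 x (hS hx) y (hS hy) hxy with h | h
    · exact hanti x hx y hy h
    · exact (hanti y hy x hx h).symm
  have himg : S.image c = range m := by
    apply eq_of_subset_of_card_le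
    · intro j hj
      obtain ⟨x, hx, rfl⟩ := mem_image.1 hj
      exact mem_range.2 (hc.1 x (hS hx))
    · rw [card_range, card_image_of_injOn hinj, hcard]
  have : i ∈ S.image c := by rw [himg]; exact mem_range.2 hi
  obtain ⟨x, hx, hxi⟩ := mem_image.1 this
  exact ⟨x, hx, hxi⟩

/-- **Dilworth's theorem.** If all antichains of `F` have at most `m` elements, then `F` is the
union of `m` chains. -/
theorem dilworth (F : Finset α) : ∀ m : ℕ, (∀ S ⊆ F, Anti S → S.card ≤ m) →
    ∃ c : α → ℕ, ChainCol F m c := by
  induction F using Finset.strongInduction with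
  | H F ih =>
    intro m hm
    rcases F.eq_empty_or_nonempty with rfl | hne
    · exact ⟨fun _ => 0, by simp [ChainCol]⟩
    obtain ⟨a, haF, hamax⟩ := F.exists_maximal hne
    have hssub : F.erase a ⊂ F := erase_ssubset haF
    by_cases hw : ∀ S ⊆ F.erase a, Anti S → S.card + 1 ≤ m
    · -- there is room for a new colour
      have hm1 : 1 ≤ m := by
        have := hw ∅ (empty_subset _) (by intro a ha; simp at ha)
        omega
      obtain ⟨c, hc1, hc2⟩ := ih _ hssub (m - 1) (fun S hS hA => by have := hw S hS hA; omega)
      refine ⟨fun x => if x = a then m - 1 else c x, ?_, ?_⟩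
      · intro x hx
        by_cases hxa : x = a
        · simp only [hxa, if_true]; omega
        · simp only [hxa, if_false]
          have := hc1 x (mem_erase.2 ⟨hxa, hx⟩)
          omega
      · intro x hx y hy hxy
        by_cases hxa : x = a
        · by_cases hya : y = a
          · subst hxa; subst hya; exact Or.inl le_rfl
          · have := hc1 y (mem_erase.2 ⟨hya, hy⟩)
            simp only [hxa, if_true, hya, if_false] at hxy
            omega
        · by_cases hya : y = a
          · have := hc1 x (mem_erase.2 ⟨hxa, hx⟩)
            simp only [hya, if_true, hxa, if_false] at hxy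
            omega
          · simp only [hxa, hya, if_false] at hxy
            exact hc2 x (mem_erase.2 ⟨hxa, hx⟩) y (mem_erase.2 ⟨hya, hy⟩) hxy
    · push Not at hw
      obtain ⟨S₀, hS₀, hA₀, hcard₀⟩ := hw
      have hcard₀' : S₀.card = m := by
        have := hm S₀ (hS₀.trans (erase_subset _ _)) hA₀
        omega
      obtain ⟨c, hc⟩ := ih _ hssub m (fun S hS hA => hm S (hS.trans (erase_subset _ _)) hA)
      classical
      -- elements of colour `i` lying in an antichain of size `m`
      let X : ℕ → Finset α := fun i => (F.erase a).filter fun x =>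
        c x = i ∧ ∃ S ⊆ F.erase a, Anti S ∧ S.card = m ∧ x ∈ S
      have hXne : ∀ i < m, (X i).Nonempty := by
        intro i hi
        obtain ⟨x, hx, hxi⟩ := exists_mem_color hc hS₀ hA₀ hcard₀' hi
        exact ⟨x, mem_filter.2 ⟨hS₀ hx, hxi, S₀, hS₀, hA₀, hcard₀', hx⟩⟩
      have hmax : ∀ i, ∃ x, i < m → (x ∈ X i ∧ ∀ y ∈ X i, y ≤ x) := by
        intro i
        by_cases hi : i < m
        · obtain ⟨x, hx, hxm⟩ := (X i).exists_maximal (hXne i hi)
          refine ⟨x, fun _ => ⟨hx, fun y hy => ?_⟩⟩
          have h1 := mem_filter.1 hx
          have h2 := mem_filter.1 hy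
          rcases hc.2 x h1.1 y h2.1 (h1.2.1.trans h2.2.1.symm) with h | h
          · exact hxm hy h
          · exact h
        · exact ⟨a, fun h => absurd h hi⟩
      choose x hx using hmax
      have hxmem : ∀ i < m, x i ∈ F.erase a ∧ c (x i) = i := by
        intro i hi
        have h1 := mem_filter.1 (hx i hi).1
        exact ⟨h1.1, h1.2.1⟩
      -- the top elements form an antichain
      have htop : ∀ i < m, ∀ j < m, x j ≤ x i → i = j := by
        intro i hi j hj hle
        have h1 := mem_filter.1 (hx i hi).1
        obtain ⟨S, hS, hA, hScard, hxS⟩ := h1.2.2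
        obtain ⟨y, hyS, hyj⟩ := exists_mem_color hc hS hA hScard hj
        have hyX : y ∈ X j := mem_filter.2 ⟨hS hyS, hyj, S, hS, hA, hScard, hyS⟩
        have hyle : y ≤ x i := ((hx j hj).2 y hyX).trans hle
        have := hA y hyS (x i) hxS hyle
        rw [← (hxmem i hi).2, ← this, hyj]
      -- some top element lies below `a`
      have hbelow : ∃ i < m, x i ≤ a := by
        by_contra hcon
        push Not at hcon
        have hinj : Set.InjOn x ((range m : Finset ℕ) : Set ℕ) := by
          intro i hi j hj hij
          exact htop i (mem_range.1 hi) j (mem_range.1 hj) hij.ge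
        have hanotin : a ∉ (range m).image x := by
          intro h
          obtain ⟨i, hi, hia⟩ := mem_image.1 h
          exact (mem_erase.1 (hxmem i (mem_range.1 hi)).1).1 hia
        have hcardU : (insert a ((range m).image x)).card = m + 1 := by
          rw [card_insert_of_notMem hanotin, card_image_of_injOn hinj, card_range]
        have hsubU : insert a ((range m).image x) ⊆ F := by
          intro z hz
          rcases mem_insert.1 hz with rfl | hz
          · exact haF
          · obtain ⟨i, hi, rfl⟩ := mem_image.1 hz
            exact mem_of_mem_erase (hxmem i (mem_range.1 hi)).1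
        have hantiU : Anti (insert a ((range m).image x)) := by
          intro z hz w hw hzw
          rcases mem_insert.1 hz with rfl | hz
          · rcases mem_insert.1 hw with rfl | hw
            · rfl
            · exact le_antisymm hzw (hamax (hsubU (mem_insert_of_mem hw)) hzw)
          · obtain ⟨i, hi, rfl⟩ := mem_image.1 hz
            rcases mem_insert.1 hw with rfl | hw
            · exact absurd hzw (hcon i (mem_range.1 hi))
            · obtain ⟨j, hj, rfl⟩ := mem_image.1 hw
              rw [htop j (mem_range.1 hj) i (mem_range.1 hi) hzw]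
        have := hm _ hsubU hantiU
        omega
      obtain ⟨i, hi, hia⟩ := hbelow
      -- remove the chain below `x i` together with `a`
      let K : Finset α := insert a ((F.erase a).filter fun z => c z = i ∧ z ≤ x i)
      have hKsub : F \ K ⊂ F := by
        refine ⟨sdiff_subset, fun h => ?_⟩
        have := h haF
        simp [K] at this
      have hm1 : 1 ≤ m := by omega
      obtain ⟨d, hd1, hd2⟩ := ih _ hKsub (m - 1) (by
        intro S hS hA
        by_contra hcon
        push Not at hcon
        have hSF : S ⊆ F := hS.trans sdiff_subset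
        have hScard : S.card = m := by
          have := hm S hSF hA
          omega
        have hSe : S ⊆ F.erase a := by
          intro z hz
          refine mem_erase.2 ⟨?_, hSF hz⟩
          rintro rfl
          have := (mem_sdiff.1 (hS hz)).2
          exact this (mem_insert_self _ _)
        obtain ⟨y, hyS, hyi⟩ := exists_mem_color hc hSe hA hScard hi
        have hyX : y ∈ X i := mem_filter.2 ⟨hSe hyS, hyi, S, hSe, hA, hScard, hyS⟩
        have hyle := (hx i hi).2 y hyX
        exact (mem_sdiff.1 (hS hyS)).2
          (mem_insert_of_mem (mem_filter.2 ⟨hSe hyS, hyi, hyle⟩)))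
      have hKchain : ∀ z ∈ K, ∀ w ∈ K, z ≤ w ∨ w ≤ z := by
        intro z hz w hw
        rcases mem_insert.1 hz with rfl | hz
        · rcases mem_insert.1 hw with rfl | hw
          · exact Or.inl le_rfl
          · exact Or.inr ((mem_filter.1 hw).2.2.trans hia)
        · rcases mem_insert.1 hw with rfl | hw
          · exact Or.inl ((mem_filter.1 hz).2.2.trans hia)
          · have h1 := mem_filter.1 hz
            have h2 := mem_filter.1 hw
            exact hc.2 z h1.1 w h2.1 (h1.2.1.trans h2.2.1.symm)
      refine ⟨fun z => if z ∈ K then m - 1 else d z, ?_, ?_⟩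
      · intro z hz
        by_cases hzK : z ∈ K
        · simp only [hzK, if_true]; omega
        · simp only [hzK, if_false]
          have := hd1 z (mem_sdiff.2 ⟨hz, hzK⟩)
          omega
      · intro z hz w hw hzw
        by_cases hzK : z ∈ K
        · by_cases hwK : w ∈ K
          · exact hKchain z hzK w hwK
          · have := hd1 w (mem_sdiff.2 ⟨hw, hwK⟩)
            simp only [hzK, if_true, hwK, if_false] at hzw
            omega
        · by_cases hwK : w ∈ K
          · have := hd1 z (mem_sdiff.2 ⟨hz, hzK⟩)
            simp only [hwK, if_true, hzK, if_false] at hzw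
            omega
          · simp only [hzK, hwK, if_false] at hzw
            exact hd2 z (mem_sdiff.2 ⟨hz, hzK⟩) w (mem_sdiff.2 ⟨hw, hwK⟩) hzw

end Pool.Agent.Work.MP_959bfa_co
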