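import Mathlib

/-!
# Pins: a greedy grouping of atoms
-/

set_option autoImplicit false

namespace Pool.Agent.Work.MP_959bfa_co

open Finset

/-- The number of elements of `D` in `[s, t)`. -/
def mass (D : Finset ℕ) (s t : ℕ) : ℕ := (D.filter fun x => s ≤ x ∧ x < t).card

theorem mass_add (D : Finset ℕ) {s t u : ℕ} (h1 : s ≤ t) (h2 : t ≤ u) :
    mass D s t + mass D t u = mass D s u := by
  unfold mass
  rw [← card_union_of_disjoint]
  · congr 1
    ext x
    simp only [mem_union, mem_filter]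
    constructor
    · rintro (⟨h, h3, h4⟩ | ⟨h, h3, h4⟩)
      · exact ⟨h, h3, by omega⟩
      · exact ⟨h, by omega, h4⟩
    · rintro ⟨h, h3, h4⟩
      by_cases h5 : x < t
      · exact Or.inl ⟨h, h3, h5⟩
      · exact Or.inr ⟨h, by omega, h4⟩
  · rw [disjoint_left]
    intro x hx hx'
    have h3 := (mem_filter.1 hx).2
    have h4 := (mem_filter.1 hx').2
    omega

theorem mass_mono {D D' : Finset ℕ} (hD : D ⊆ D') {a b c d : ℕ} (h1 : c ≤ a) (h2 : b ≤ d) :
    mass D a b ≤ mass D' c d := by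
  unfold mass
  apply card_le_card
  intro x hx
  obtain ⟨h, h3, h4⟩ := mem_filter.1 hx
  exact mem_filter.2 ⟨hD h, by omega, by omega⟩

theorem mass_self (D : Finset ℕ) (s : ℕ) : mass D s s = 0 := by
  unfold mass
  rw [card_eq_zero, filter_eq_empty_iff]
  intro x _
  omega

theorem mass_succ (D : Finset ℕ) (s : ℕ) : mass D s (s + 1) ≤ 1 := by
  unfold mass
  rw [card_le_one]
  intro a ha b hb
  have h3 := (mem_filter.1 ha).2
  have h4 := (mem_filter.1 hb).2
  omega

/-- Two half-open intervals are nested or disjoint. -/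
def NestDisj (T T' : ℕ × ℕ) : Prop :=
  (T'.1 ≤ T.1 ∧ T.2 ≤ T'.2) ∨ (T.1 ≤ T'.1 ∧ T'.2 ≤ T.2) ∨ T.2 ≤ T'.1 ∨ T'.2 ≤ T.1

/-- `x` is not strictly inside a member of `𝒯`. -/
def OkCut (𝒯 : Finset (ℕ × ℕ)) (x : ℕ) : Prop := ∀ T ∈ 𝒯, ¬ (T.1 < x ∧ x < T.2)

theorem mass_atom {D : Finset ℕ} {𝒯 : Finset (ℕ × ℕ)} {w : ℕ} (hw : 1 ≤ w)
    (hlam : ∀ T ∈ 𝒯, ∀ T' ∈ 𝒯, NestDisj T T') (hmass : ∀ T ∈ 𝒯, mass D T.1 T.2 ≤ w)
    {s t : ℕ} (hs : OkCut 𝒯 s) (hst : s < t) (hcons : ∀ x, s < x → x < t → ¬ OkCut 𝒯 x) :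
    mass D s t ≤ w := by
  classical
  rcases Nat.lt_or_ge (s + 1) t with h1 | h1
  · have h2 := hcons (s + 1) (by omega) h1
    unfold OkCut at h2
    push Not at h2
    obtain ⟨T₀, hT₀, h3, h4⟩ := h2
    have h5 : T₀.1 = s := by
      have := hs T₀ hT₀
      omega
    obtain ⟨T, hT, hTmax⟩ := exists_max_image (𝒯.filter fun T => T.1 = s ∧ s + 1 < T.2)
      (fun T => T.2) ⟨T₀, mem_filter.2 ⟨hT₀, h5, h4⟩⟩
    obtain ⟨hT𝒯, hTs, hTlt⟩ := mem_filter.1 hT
    have hok : OkCut 𝒯 T.2 := by
      rintro T' hT' ⟨h6, h7⟩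
      have h8 := hs T' hT'
      rcases hlam T hT𝒯 T' hT' with h | h | h | h
      · have h9 : T'.1 = s := by omega
        have := hTmax T' (mem_filter.2 ⟨hT', h9, by omega⟩)
        omega
      · omega
      · omega
      · omega
    have h10 : t ≤ T.2 := by
      by_contra hcon
      exact hcons T.2 (by omega) (by omega) hok
    calc mass D s t ≤ mass D T.1 T.2 := mass_mono (Subset.refl D) (by omega) h10
      _ ≤ w := hmass T hT𝒯
  · have h2 : t = s + 1 := by omega
    rw [h2]
    exact (mass_succ D s).trans hw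

/-- The greedy construction of pins in `[s, n)`. -/
theorem exists_pins (D : Finset ℕ) (𝒯 : Finset (ℕ × ℕ)) (n k : ℕ) (hk : 3 ≤ k)
    (hlam : ∀ T ∈ 𝒯, ∀ T' ∈ 𝒯, NestDisj T T') (hn : ∀ T ∈ 𝒯, T.2 ≤ n)
    (hmass : ∀ T ∈ 𝒯, 5 * mass D T.1 T.2 ≤ 2 * k) :
    ∀ N s : ℕ, n - s ≤ N → s ≤ n → OkCut 𝒯 s → ∃ 𝒬 : Finset (ℕ × ℕ),
      (∀ P ∈ 𝒬, s ≤ P.1 ∧ P.1 < P.2 ∧ P.2 ≤ n ∧ OkCut 𝒯 P.1 ∧ OkCut 𝒯 P.2 ∧
        k ≤ 5 * mass D P.1 P.2 ∧ 5 * mass D P.1 P.2 ≤ 2 * k) ∧
      (∀ P ∈ 𝒬, ∀ P' ∈ 𝒬, P = P' ∨ P.2 ≤ P'.1 ∨ P'.2 ≤ P.1) ∧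
      (∀ b ≤ n, (∀ P ∈ 𝒬, ¬ P.2 ≤ b) → 5 * mass D s b < 3 * k) ∧
      (∀ a b, s ≤ a → b ≤ n → (∀ P ∈ 𝒬, ¬ (a ≤ P.1 ∧ P.2 ≤ b)) → mass D a b < k) := by
  classical
  intro N
  induction N with
  | zero =>
    intro s hsN hsn _
    have hs : s = n := by omega
    subst hs
    refine ⟨∅, by simp, by simp, ?_, ?_⟩
    · intro b hb _
      have := mass_mono (Subset.refl D) (le_refl s) hb
      rw [mass_self] at this
      omega
    · intro a b ha hb _
      have := mass_mono (Subset.refl D) ha hb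
      rw [mass_self] at this
      omega
  | succ N ih =>
    intro s hsN hsn hs
    by_cases hsmall : 5 * mass D s n < k
    · refine ⟨∅, by simp, by simp, ?_, ?_⟩
      · intro b hb _
        have := mass_mono (Subset.refl D) (le_refl s) hb
        omega
      · intro a b ha hb _
        have := mass_mono (Subset.refl D) ha hb
        omega
    · push Not at hsmall
      have hex : ∃ t, t ≤ n ∧ OkCut 𝒯 t ∧ k ≤ 5 * mass D s t :=
        ⟨n, le_rfl, fun T hT h => by have := hn T hT; omega, hsmall⟩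
      obtain ⟨htn, htok, htk⟩ := Nat.find_spec hex
      set t := Nat.find hex with ht
      have htmin : ∀ x, x < t → x ≤ n → OkCut 𝒯 x → 5 * mass D s x < k := by
        intro x hx hxn hxok
        by_contra hcon
        push Not at hcon
        exact Nat.find_min hex hx ⟨hxn, hxok, hcon⟩
      have hst : s < t := by
        by_contra hcon
        push Not at hcon
        have h1 := mass_mono (Subset.refl D) (le_refl s) hcon
        rw [mass_self] at h1
        omega
      -- the previous admissible cut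
      obtain ⟨p, hp, hpmax⟩ := exists_max_image ((range t).filter fun x => s ≤ x ∧ OkCut 𝒯 x)
        id ⟨s, mem_filter.2 ⟨mem_range.2 hst, le_rfl, hs⟩⟩
      obtain ⟨hpt, hsp, hpok⟩ := mem_filter.1 hp
      have hpt' : p < t := mem_range.1 hpt
      have hcons : ∀ x, p < x → x < t → ¬ OkCut 𝒯 x := by
        intro x hx1 hx2 hx3
        have := hpmax x (mem_filter.2 ⟨mem_range.2 hx2, by omega, hx3⟩)
        simp only [id] at this
        omega
      have hpk : 5 * mass D s p < k := htmin p hpt' (by omega) hpok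
      have hatom : 5 * mass D p t ≤ 2 * k := by
        have h1 : mass D p t ≤ 2 * k / 5 := by
          apply mass_atom (by omega) hlam (fun T hT => ?_) hpok hpt' hcons
          have := hmass T hT
          omega
        omega
      have hadd : mass D s p + mass D p t = mass D s t := mass_add D hsp hpt'.le
      -- the new pin
      obtain ⟨u, hsu, hut, huok, huk1, huk2, hsu_small⟩ : ∃ u, s ≤ u ∧ u < t ∧ OkCut 𝒯 u ∧
          k ≤ 5 * mass D u t ∧ 5 * mass D u t ≤ 2 * k ∧ 5 * mass D s u < k := by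
        by_cases hA : 5 * mass D s t ≤ 2 * k
        · refine ⟨s, le_rfl, hst, hs, htk, hA, ?_⟩
          rw [mass_self]
          omega
        · exact ⟨p, hsp, hpt', hpok, by omega, hatom, hpk⟩
      have hsut : mass D s u + mass D u t = mass D s t := mass_add D hsu hut.le
      obtain ⟨𝒬, hP1, hP2, hP3, hP4⟩ := ih t (by omega) htn htok
      refine ⟨insert (u, t) 𝒬, ?_, ?_, ?_, ?_⟩
      · intro P hP
        rcases mem_insert.1 hP with rfl | hP
        · exact ⟨hsu, hut, htn, huok, htok, huk1, huk2⟩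
        · obtain ⟨h1, h2, h3, h4, h5, h6, h7⟩ := hP1 P hP
          exact ⟨by omega, h2, h3, h4, h5, h6, h7⟩
      · intro P hP P' hP'
        rcases mem_insert.1 hP with rfl | hP
        · rcases mem_insert.1 hP' with rfl | hP'
          · exact Or.inl rfl
          · exact Or.inr (Or.inl (hP1 P' hP').1)
        · rcases mem_insert.1 hP' with rfl | hP'
          · exact Or.inr (Or.inr (hP1 P hP).1)
          · exact hP2 P hP P' hP'
      · intro b hb hno
        have hbt : b < t := by
          have := hno (u, t) (mem_insert_self _ _)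
          simpa using this
        have h1 := mass_mono (Subset.refl D) (le_refl s) hbt.le
        omega
      · intro a b ha hb hno
        by_cases hat : t ≤ a
        · exact hP4 a b hat hb (fun P hP => hno P (mem_insert_of_mem hP))
        · push Not at hat
          by_cases hbt : b < t
          · have h1 := mass_mono (Subset.refl D) ha hbt.le
            omega
          · push Not at hbt
            have hua : u < a := by
              have := hno (u, t) (mem_insert_self _ _)
              simp only at this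
              omega
            have h1 : mass D a t + mass D t b = mass D a b := mass_add D hat.le hbt
            have h2 := mass_mono (Subset.refl D) hua.le (le_refl t)
            have h3 := hP3 b hb (fun P hP hPb => hno P (mem_insert_of_mem hP)
              ⟨hat.le.trans (hP1 P hP).1, hPb⟩)
            omega

end Pool.Agent.Work.MP_959bfa_co
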