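import Mathlib
import Pool.Agent.Work.MP_959bfa_co.Dilworth
import Pool.Agent.Work.MP_959bfa_co.Pins

/-!
# A compatible system of pins for a laminar family, and the combinatorial core
-/

set_option autoImplicit false

namespace Pool.Agent.Work.MP_959bfa_co

open Finset

theorem exists_pin_system (n k : ℕ) (hk : 3 ≤ k) (𝒟 : Finset (Finset ℕ)) :
    (∀ D ∈ 𝒟, D.Nonempty) → (∀ D ∈ 𝒟, ∀ D' ∈ 𝒟, D ⊆ D' ∨ D' ⊆ D ∨ Disjoint D D') →
    ∃ Pin : Finset ℕ → Finset (ℕ × ℕ),
      (∀ D ∈ 𝒟, ∀ P ∈ Pin D, P.1 < P.2 ∧ P.2 ≤ n ∧ k ≤ 5 * mass D P.1 P.2 ∧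
        5 * mass D P.1 P.2 ≤ 2 * k) ∧
      (∀ D ∈ 𝒟, ∀ P ∈ Pin D, ∀ P' ∈ Pin D, P = P' ∨ P.2 ≤ P'.1 ∨ P'.2 ≤ P.1) ∧
      (∀ D ∈ 𝒟, ∀ a b, b ≤ n → (∀ P ∈ Pin D, ¬ (a ≤ P.1 ∧ P.2 ≤ b)) → mass D a b < k) ∧
      (∀ D ∈ 𝒟, ∀ D' ∈ 𝒟, D ⊆ D' → D ≠ D' → ∀ P ∈ Pin D, ∀ P' ∈ Pin D',
        (P.1 ≤ P'.1 ∧ P'.2 ≤ P.2) ∨ P.2 ≤ P'.1 ∨ P'.2 ≤ P.1) := by
  classical
  induction 𝒟 using Finset.induction_on_min_value (fun D : Finset ℕ => D.card) with
  | empty =>
    intro _ _
    exact ⟨fun _ => ∅, by simp, by simp, by simp, by simp⟩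
  | insert D₀ 𝒟 hD₀ hmin ih =>
    intro hne hlam
    obtain ⟨Pin, h1, h2, h3, h4⟩ := ih (fun D hD => hne D (mem_insert_of_mem hD))
      (fun D hD D' hD' => hlam D (mem_insert_of_mem hD) D' (mem_insert_of_mem hD'))
    obtain ⟨z, hz⟩ := hne D₀ (mem_insert_self _ _)
    let 𝒯 : Finset (ℕ × ℕ) := (𝒟.filter fun D => D₀ ⊆ D).biUnion Pin
    have hT : ∀ T ∈ 𝒯, ∃ D ∈ 𝒟, D₀ ⊆ D ∧ T ∈ Pin D := by
      intro T hT
      obtain ⟨D, hD, hTD⟩ := mem_biUnion.1 hT
      obtain ⟨hD1, hD2⟩ := mem_filter.1 hD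
      exact ⟨D, hD1, hD2, hTD⟩
    have hTlam : ∀ T ∈ 𝒯, ∀ T' ∈ 𝒯, NestDisj T T' := by
      intro T hT1 T' hT1'
      obtain ⟨D, hD, hDD, hTD⟩ := hT T hT1
      obtain ⟨D', hD', hDD', hTD'⟩ := hT T' hT1'
      unfold NestDisj
      by_cases heq : D = D'
      · subst heq
        rcases h2 D hD T hTD T' hTD' with h | h | h
        · subst h; exact Or.inl ⟨le_rfl, le_rfl⟩
        · exact Or.inr (Or.inr (Or.inl h))
        · exact Or.inr (Or.inr (Or.inr h))
      · rcases hlam D (mem_insert_of_mem hD) D' (mem_insert_of_mem hD') with h | h | h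
        · rcases h4 D hD D' hD' h heq T hTD T' hTD' with h5 | h5 | h5
          · exact Or.inr (Or.inl h5)
          · exact Or.inr (Or.inr (Or.inl h5))
          · exact Or.inr (Or.inr (Or.inr h5))
        · rcases h4 D' hD' D hD h (Ne.symm heq) T' hTD' T hTD with h5 | h5 | h5
          · exact Or.inl h5
          · exact Or.inr (Or.inr (Or.inr h5))
          · exact Or.inr (Or.inr (Or.inl h5))
        · exact absurd (hDD' hz) (disjoint_left.1 h (hDD hz))
    obtain ⟨𝒬, hQ1, hQ2, -, hQ4⟩ := exists_pins D₀ 𝒯 n k hk hTlam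
      (fun T hT1 => by
        obtain ⟨D, hD, -, hTD⟩ := hT T hT1
        exact (h1 D hD T hTD).2.1)
      (fun T hT1 => by
        obtain ⟨D, hD, hDD, hTD⟩ := hT T hT1
        have h5 := (h1 D hD T hTD).2.2.2
        have h6 := mass_mono hDD (le_refl T.1) (le_refl T.2)
        omega)
      n 0 (by omega) (Nat.zero_le n) (fun T _ h => by omega)
    have hupd : ∀ D ∈ 𝒟, Function.update Pin D₀ 𝒬 D = Pin D := by
      intro D hD
      apply Function.update_of_ne
      rintro rfl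
      exact hD₀ hD
    refine ⟨Function.update Pin D₀ 𝒬, ?_, ?_, ?_, ?_⟩
    · intro D hD P hP
      rcases mem_insert.1 hD with rfl | hD
      · rw [Function.update_self] at hP
        obtain ⟨-, h5, h6, -, -, h7, h8⟩ := hQ1 P hP
        exact ⟨h5, h6, h7, h8⟩
      · rw [hupd D hD] at hP
        exact h1 D hD P hP
    · intro D hD P hP P' hP'
      rcases mem_insert.1 hD with rfl | hD
      · rw [Function.update_self] at hP hP'
        exact hQ2 P hP P' hP'
      · rw [hupd D hD] at hP hP'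
        exact h2 D hD P hP P' hP'
    · intro D hD a b hb hno
      rcases mem_insert.1 hD with rfl | hD
      · rw [Function.update_self] at hno
        exact hQ4 a b (Nat.zero_le a) hb hno
      · rw [hupd D hD] at hno
        exact h3 D hD a b hb hno
    · intro D hD D' hD' hsub hne' P hP P' hP'
      rcases mem_insert.1 hD with h0 | hDm
      · rcases mem_insert.1 hD' with h0' | hDm'
        · exact absurd (h0.trans h0'.symm) hne'
        · rw [h0, Function.update_self] at hP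
          rw [hupd D' hDm'] at hP'
          obtain ⟨-, h5, -, h6, h7, -, -⟩ := hQ1 P hP
          have hP'T : P' ∈ 𝒯 := mem_biUnion.2 ⟨D', mem_filter.2 ⟨hDm', h0 ▸ hsub⟩, hP'⟩
          have h8 := h6 P' hP'T
          have h9 := h7 P' hP'T
          have h10 := (h1 D' hDm' P' hP').1
          omega
      · rcases mem_insert.1 hD' with h0' | hDm'
        · have h5 := hmin D hDm
          rw [h0'] at hsub hne'
          exact absurd (eq_of_subset_of_card_le hsub h5) hne'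
        · rw [hupd D hDm] at hP
          rw [hupd D' hDm'] at hP'
          exact h4 D hDm D' hDm' hsub hne' P hP P' hP'

/-- The combinatorial core: intervals of positions times members of a laminar family. -/
theorem core (n k : ℕ) (hk : 1 ≤ k) (𝒟 : Finset (Finset ℕ)) (hne : ∀ D ∈ 𝒟, D.Nonempty)
    (hlam : ∀ D ∈ 𝒟, ∀ D' ∈ 𝒟, D ⊆ D' ∨ D' ⊆ D ∨ Disjoint D D')
    (hn : ∀ D ∈ 𝒟, D ⊆ range n) :
    ∃ N : Finset (ℕ × ℕ), k * N.card ≤ 5 * n ∧
      ∀ D ∈ 𝒟, ∀ a b, b ≤ n → k ≤ mass D a b → ∃ p ∈ N, a ≤ p.1 ∧ p.1 < b ∧ p.2 ∈ D := by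
  classical
  by_cases hk3 : k < 3
  · refine ⟨(range n).image fun i => (i, i), ?_, ?_⟩
    · have h1 : ((range n).image fun i => (i, i)).card ≤ n := by
        calc _ ≤ (range n).card := card_image_le
          _ = n := card_range n
      nlinarith
    · intro D hD a b _ hm
      have h1 : 0 < mass D a b := by omega
      obtain ⟨x, hx⟩ := card_pos.1 h1
      obtain ⟨hxD, hx1, hx2⟩ := mem_filter.1 hx
      exact ⟨(x, x), mem_image.2 ⟨x, hn D hD hxD, rfl⟩, hx1, hx2, hxD⟩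
  push Not at hk3
  obtain ⟨Pin, h1, h2, h3, h4⟩ := exists_pin_system n k hk3 𝒟 hne hlam
  -- the boxes
  let F : Finset (Finset ℕ × ℕ × ℕᵒᵈ) :=
    𝒟.biUnion fun D => (Pin D).image fun P => (D, P.1, OrderDual.toDual P.2)
  have hF : ∀ b ∈ F, b.1 ∈ 𝒟 ∧ (b.2.1, OrderDual.ofDual b.2.2) ∈ Pin b.1 := by
    intro b hb
    obtain ⟨D, hD, hb⟩ := mem_biUnion.1 hb
    obtain ⟨P, hP, rfl⟩ := mem_image.1 hb
    exact ⟨hD, hP⟩
  -- the elements of a box
  let E : Finset ℕ × ℕ × ℕᵒᵈ → Finset ℕ := fun b =>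
    b.1.filter fun x => b.2.1 ≤ x ∧ x < OrderDual.ofDual b.2.2
  have hEcard : ∀ b ∈ F, k ≤ 5 * (E b).card := by
    intro b hb
    obtain ⟨hD, hP⟩ := hF b hb
    exact (h1 _ hD _ hP).2.2.1
  -- boxes with a common element are comparable
  have hmeet : ∀ b ∈ F, ∀ b' ∈ F, ∀ x, x ∈ E b → x ∈ E b' → b ≤ b' ∨ b' ≤ b := by
    intro b hb b' hb' x hx hx'
    obtain ⟨hD, hP⟩ := hF b hb
    obtain ⟨hD', hP'⟩ := hF b' hb'
    obtain ⟨hx1, hx2, hx3⟩ := mem_filter.1 hx
    obtain ⟨hx1', hx2', hx3'⟩ := mem_filter.1 hx'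
    have key : ∀ b ∈ F, ∀ b' ∈ F, x ∈ E b → x ∈ E b' → b.1 ⊆ b'.1 → b ≤ b' := by
      intro b hb b' hb' hx hx' hsub
      obtain ⟨hD, hP⟩ := hF b hb
      obtain ⟨hD', hP'⟩ := hF b' hb'
      obtain ⟨hx1, hx2, hx3⟩ := mem_filter.1 hx
      obtain ⟨hx1', hx2', hx3'⟩ := mem_filter.1 hx'
      by_cases heq : b.1 = b'.1
      · rw [← heq] at hP'
        rcases h2 _ hD _ hP _ hP' with h | h | h
        · have h5 : b.2.1 = b'.2.1 := congrArg Prod.fst h
          have h6 : OrderDual.ofDual b.2.2 = OrderDual.ofDual b'.2.2 := congrArg Prod.snd h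
          refine ⟨hsub, ?_, ?_⟩
          · exact h5.le
          · exact (OrderDual.ofDual_le_ofDual).1 h6.ge
        · simp only at h; omega
        · simp only at h; omega
      · rcases h4 _ hD _ hD' hsub heq _ hP _ hP' with h | h | h
        · exact ⟨hsub, h.1, (OrderDual.ofDual_le_ofDual).1 h.2⟩
        · simp only at h; omega
        · simp only at h; omega
    rcases hlam _ hD _ hD' with h | h | h
    · exact Or.inl (key b hb b' hb' hx hx' h)
    · exact Or.inr (key b' hb' b hb hx' hx h)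
    · exact absurd hx1' (disjoint_left.1 h hx1)
  -- antichains are small
  have hanti : ∀ S ⊆ F, Anti S → S.card ≤ 5 * n / k := by
    intro S hS hA
    rw [Nat.le_div_iff_mul_le (by omega)]
    have hdisj : ∀ b ∈ S, ∀ b' ∈ S, b ≠ b' → Disjoint (E b) (E b') := by
      intro b hb b' hb' hne'
      rw [disjoint_left]
      intro x hx hx'
      rcases hmeet b (hS hb) b' (hS hb') x hx hx' with h | h
      · exact hne' (hA b hb b' hb' h)
      · exact hne' (hA b' hb' b hb h).symm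
    have hunion : (S.biUnion E).card ≤ n := by
      calc (S.biUnion E).card ≤ (range n).card := by
            apply card_le_card
            intro x hx
            obtain ⟨b, hb, hxb⟩ := mem_biUnion.1 hx
            exact hn _ (hF b (hS hb)).1 (mem_filter.1 hxb).1
        _ = n := card_range n
    rw [card_biUnion hdisj] at hunion
    calc S.card * k = ∑ _b ∈ S, k := by rw [sum_const, smul_eq_mul]
      _ ≤ ∑ b ∈ S, 5 * (E b).card := sum_le_sum fun b hb => hEcard b (hS hb)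
      _ = 5 * ∑ b ∈ S, (E b).card := by rw [mul_sum]
      _ ≤ 5 * n := by omega
  obtain ⟨c, hc1, hc2⟩ := dilworth F _ hanti
  -- a common point of every chain
  have hpt : ∀ i : ℕ, ∃ p : ℕ × ℕ, ∀ b ∈ F, c b = i →
      b.2.1 ≤ p.1 ∧ p.1 < OrderDual.ofDual b.2.2 ∧ p.2 ∈ b.1 := by
    intro i
    rcases (F.filter fun b => c b = i).eq_empty_or_nonempty with h | h
    · refine ⟨(0, 0), fun b hb hbi => ?_⟩
      have : b ∈ F.filter fun b => c b = i := mem_filter.2 ⟨hb, hbi⟩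
      rw [h] at this
      simp at this
    · obtain ⟨bm, hbm, hbmin⟩ := (F.filter fun b => c b = i).exists_minimal h
      obtain ⟨bM, hbM, hbmax⟩ := (F.filter fun b => c b = i).exists_maximal h
      obtain ⟨hbmF, hbmi⟩ := mem_filter.1 hbm
      obtain ⟨hbMF, hbMi⟩ := mem_filter.1 hbM
      obtain ⟨y, hy⟩ := hne _ (hF bm hbmF).1
      refine ⟨(bM.2.1, y), fun b hb hbi => ?_⟩
      have hbmem : b ∈ F.filter fun b => c b = i := mem_filter.2 ⟨hb, hbi⟩
      have hle1 : bm ≤ b := by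
        rcases hc2 bm hbmF b hb (hbmi.trans hbi.symm) with h5 | h5
        · exact h5
        · exact hbmin hbmem h5
      have hle2 : b ≤ bM := by
        rcases hc2 b hb bM hbMF (hbi.trans hbMi.symm) with h5 | h5
        · exact h5
        · exact hbmax hbmem h5
      have h6 := (h1 _ (hF bM hbMF).1 _ (hF bM hbMF).2).1
      have h7 : OrderDual.ofDual bM.2.2 ≤ OrderDual.ofDual b.2.2 :=
        OrderDual.ofDual_le_ofDual.2 hle2.2.2
      exact ⟨hle2.2.1, lt_of_lt_of_le h6 h7, hle1.1 hy⟩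
  choose g hg using hpt
  refine ⟨(range (5 * n / k)).image g, ?_, ?_⟩
  · have h5 : ((range (5 * n / k)).image g).card ≤ 5 * n / k := by
      calc _ ≤ (range (5 * n / k)).card := card_image_le
        _ = 5 * n / k := card_range _
    calc k * ((range (5 * n / k)).image g).card ≤ k * (5 * n / k) := Nat.mul_le_mul_left k h5
      _ ≤ 5 * n := Nat.mul_div_le _ _
  · intro D hD a b hb hm
    have h5 : ∃ P ∈ Pin D, a ≤ P.1 ∧ P.2 ≤ b := by
      by_contra hcon
      push Not at hcon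
      have := h3 D hD a b hb (fun P hP h => absurd h.2 (not_le.2 (hcon P hP h.1)))
      omega
    obtain ⟨P, hP, hP1, hP2⟩ := h5
    have hbF : (D, P.1, OrderDual.toDual P.2) ∈ F :=
      mem_biUnion.2 ⟨D, hD, mem_image.2 ⟨P, hP, rfl⟩⟩
    have h6 := hg (c (D, P.1, OrderDual.toDual P.2)) _ hbF rfl
    refine ⟨g (c (D, P.1, OrderDual.toDual P.2)),
      mem_image.2 ⟨_, mem_range.2 (hc1 _ hbF), rfl⟩, ?_, ?_, ?_⟩
    · exact hP1.trans h6.1
    · exact lt_of_lt_of_le h6.2.1 hP2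
    · exact h6.2.2

end Pool.Agent.Work.MP_959bfa_co
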