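import Mathlib
import Pool.Agent.Work.MP_959bfa_co.System

/-!
# Transfer to the plane
-/

set_option autoImplicit false

namespace Pool.Agent.Work.MP_959bfa_co

open Finset

/-- One laminar family, threshold `k`. -/
theorem plane_one (k : ℕ) (hk : 1 ≤ k) (A : Finset (ℝ × ℝ)) (𝒥 : Set (Set ℝ))
    (hlam : ∀ J ∈ 𝒥, ∀ J' ∈ 𝒥, J ⊆ J' ∨ J' ⊆ J ∨ Disjoint J J') :
    ∃ A' : Finset (ℝ × ℝ), k * A'.card ≤ 5 * A.card ∧
      ∀ I : Set ℝ, I.OrdConnected → ∀ J ∈ 𝒥, k ≤ ((A : Set (ℝ × ℝ)) ∩ I ×ˢ J).ncard →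
        ∃ p ∈ A', p ∈ I ×ˢ J := by
  classical
  -- sort `A` by the first coordinate
  let B : Finset (ℝ ×ₗ ℝ) := A.map toLex.toEmbedding
  have hB : B.card = A.card := card_map _
  let e : Fin A.card ↪o ℝ ×ₗ ℝ := B.orderEmbOfFin hB
  let pt : ℕ → ℝ × ℝ := fun i => if h : i < A.card then ofLex (e ⟨i, h⟩) else (0, 0)
  have hpt : ∀ i (h : i < A.card), pt i = ofLex (e ⟨i, h⟩) := fun i h => dif_pos h
  have hmono : ∀ i j, i ≤ j → j < A.card → (pt i).1 ≤ (pt j).1 := by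
    intro i j hij hj
    rw [hpt i (by omega), hpt j hj]
    have h1 : e ⟨i, by omega⟩ ≤ e ⟨j, hj⟩ := e.monotone hij
    exact (Prod.Lex.monotone_fst _ _ h1)
  have hinj : ∀ i j, i < A.card → j < A.card → pt i = pt j → i = j := by
    intro i j hi hj hij
    rw [hpt i hi, hpt j hj] at hij
    have h1 : e ⟨i, hi⟩ = e ⟨j, hj⟩ := ofLex.injective hij
    have h2 := e.injective h1
    simpa using h2
  have hsurj : ∀ p ∈ A, ∃ i < A.card, pt i = p := by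
    intro p hp
    have h1 : toLex p ∈ B := mem_map.2 ⟨p, hp, rfl⟩
    have h2 : toLex p ∈ Set.range e := by
      rw [range_orderEmbOfFin]
      exact h1
    obtain ⟨i, hi⟩ := h2
    refine ⟨i.val, i.isLt, ?_⟩
    rw [hpt i.val i.isLt]
    change ofLex (e i) = p
    rw [hi]
    rfl
  -- traces
  let tr : Set ℝ → Finset ℕ := fun J => (range A.card).filter fun i => (pt i).2 ∈ J
  let 𝒟 : Finset (Finset ℕ) := (range A.card).powerset.filter fun D =>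
    D.Nonempty ∧ ∃ J ∈ 𝒥, tr J = D
  obtain ⟨N, hN1, hN2⟩ := core A.card k hk 𝒟 (fun D hD => (mem_filter.1 hD).2.1)
    (by
      intro D hD D' hD'
      obtain ⟨-, -, J, hJ, rfl⟩ := mem_filter.1 hD
      obtain ⟨-, -, J', hJ', rfl⟩ := mem_filter.1 hD'
      rcases hlam J hJ J' hJ' with h | h | h
      · refine Or.inl fun i hi => ?_
        obtain ⟨h1, h2⟩ := mem_filter.1 hi
        exact mem_filter.2 ⟨h1, h h2⟩
      · refine Or.inr (Or.inl fun i hi => ?_)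
        obtain ⟨h1, h2⟩ := mem_filter.1 hi
        exact mem_filter.2 ⟨h1, h h2⟩
      · refine Or.inr (Or.inr (disjoint_left.2 fun i hi hi' => ?_))
        exact Set.disjoint_left.1 h (mem_filter.1 hi).2 (mem_filter.1 hi').2)
    (fun D hD => mem_powerset.1 (mem_filter.1 hD).1)
  refine ⟨N.image fun p => ((pt p.1).1, (pt p.2).2), ?_, ?_⟩
  · calc k * (N.image _).card ≤ k * N.card := Nat.mul_le_mul_left k card_image_le
      _ ≤ 5 * A.card := hN1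
  · intro I hI J hJ hm
    -- positions of the points of `A` in `I × J`
    let S : Finset ℕ := (range A.card).filter fun i => (pt i).1 ∈ I ∧ (pt i).2 ∈ J
    have hScard : k ≤ S.card := by
      refine hm.trans ?_
      have h1 : ((A : Set (ℝ × ℝ)) ∩ I ×ˢ J) ⊆ ((S.image pt : Finset (ℝ × ℝ)) : Set (ℝ × ℝ)) := by
        rintro p ⟨hp, hpI, hpJ⟩
        obtain ⟨i, hi, rfl⟩ := hsurj p hp
        exact mem_coe.2 (mem_image.2 ⟨i, mem_filter.2 ⟨mem_range.2 hi, hpI, hpJ⟩, rfl⟩)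
      calc ((A : Set (ℝ × ℝ)) ∩ I ×ˢ J).ncard
          ≤ ((S.image pt : Finset (ℝ × ℝ)) : Set (ℝ × ℝ)).ncard :=
            Set.ncard_le_ncard h1 (finite_toSet _)
        _ = (S.image pt).card := Set.ncard_coe_finset _
        _ ≤ S.card := card_image_le
    have hSne : S.Nonempty := card_pos.1 (by omega)
    have hmin := S.min'_mem hSne
    have hmax := S.max'_mem hSne
    obtain ⟨hmin1, hmin2, -⟩ := mem_filter.1 hmin
    obtain ⟨hmax1, hmax2, -⟩ := mem_filter.1 hmax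
    have hmax1' := mem_range.1 hmax1
    have hD : tr J ∈ 𝒟 := by
      refine mem_filter.2 ⟨mem_powerset.2 (filter_subset _ _), ?_, J, hJ, rfl⟩
      exact ⟨S.min' hSne, mem_filter.2 ⟨hmin1, (mem_filter.1 hmin).2.2⟩⟩
    obtain ⟨p, hpN, hp1, hp2, hp3⟩ := hN2 (tr J) hD (S.min' hSne) (S.max' hSne + 1) hmax1' (by
      refine hScard.trans (card_le_card fun i hi => ?_)
      obtain ⟨h1, h2, h3⟩ := mem_filter.1 hi
      have h4 := S.min'_le i hi
      have h5 := S.le_max' i hi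
      exact mem_filter.2 ⟨mem_filter.2 ⟨h1, h3⟩, h4, by omega⟩)
    refine ⟨_, mem_image.2 ⟨p, hpN, rfl⟩, ?_, (mem_filter.1 hp3).2⟩
    exact hI.out hmin2 hmax2
      ⟨hmono _ _ hp1 (by omega), hmono _ _ (by omega) hmax1'⟩

/-- Several laminar families and unions of at most `r` members. -/
theorem plane_many (k q r : ℕ) (hk : 1 ≤ k) (A : Finset (ℝ × ℝ)) (𝒥 : Fin q → Set (Set ℝ))
    (hlam : ∀ i, ∀ J ∈ 𝒥 i, ∀ J' ∈ 𝒥 i, J ⊆ J' ∨ J' ⊆ J ∨ Disjoint J J') :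
    ∃ A' : Finset (ℝ × ℝ), k * A'.card ≤ 5 * q * r * A.card ∧
      ∀ I : Set ℝ, I.OrdConnected → ∀ 𝒦 : Finset (Set ℝ), 𝒦.card ≤ r →
        (∀ K ∈ 𝒦, ∃ i, K ∈ 𝒥 i) →
        k ≤ ((A : Set (ℝ × ℝ)) ∩ I ×ˢ (⋃₀ (𝒦 : Set (Set ℝ)))).ncard →
        ∃ p ∈ A', p ∈ I ×ˢ (⋃₀ (𝒦 : Set (Set ℝ))) := by
  classical
  rcases Nat.eq_zero_or_pos r with rfl | hr
  · refine ⟨∅, by simp, ?_⟩
    intro I _ 𝒦 hcard _ hm
    have h1 : 𝒦 = ∅ := card_eq_zero.1 (Nat.le_zero.1 hcard)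
    subst h1
    simp at hm
    omega
  -- the threshold `⌈k / r⌉`
  obtain ⟨k', hk'1, hk'2, hk'3⟩ : ∃ k', 1 ≤ k' ∧ k ≤ r * k' ∧ ∀ m, k ≤ r * m → k' ≤ m := by
    have hex : ∃ m, k ≤ r * m := ⟨k, Nat.le_mul_of_pos_left k hr⟩
    refine ⟨Nat.find hex, ?_, Nat.find_spec hex, fun m hm => Nat.find_min' hex hm⟩
    rw [Nat.one_le_iff_ne_zero]
    intro h0
    have := Nat.find_spec hex
    rw [h0] at this
    omega
  choose A' hA'1 hA'2 using fun i => plane_one k' hk'1 A (𝒥 i) (hlam i)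
  refine ⟨univ.biUnion A', ?_, ?_⟩
  · have h1 : k' * (univ.biUnion A').card ≤ q * (5 * A.card) := by
      calc k' * (univ.biUnion A').card ≤ k' * ∑ i, (A' i).card :=
            Nat.mul_le_mul_left _ card_biUnion_le
        _ = ∑ i, k' * (A' i).card := by rw [mul_sum]
        _ ≤ ∑ _i : Fin q, 5 * A.card := sum_le_sum fun i _ => hA'1 i
        _ = q * (5 * A.card) := by simp
    calc k * (univ.biUnion A').card ≤ r * k' * (univ.biUnion A').card :=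
          Nat.mul_le_mul_right _ hk'2
      _ = r * (k' * (univ.biUnion A').card) := by ring
      _ ≤ r * (q * (5 * A.card)) := Nat.mul_le_mul_left _ h1
      _ = 5 * q * r * A.card := by ring
  · intro I hI 𝒦 hcard h𝒦 hm
    have hfin : ∀ K : Set ℝ, ((A : Set (ℝ × ℝ)) ∩ I ×ˢ K).Finite := fun K =>
      A.finite_toSet.subset Set.inter_subset_left
    -- some member carries a proportion `1 / r` of the points
    have hex : ∃ K ∈ 𝒦, k' ≤ ((A : Set (ℝ × ℝ)) ∩ I ×ˢ K).ncard := by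
      by_contra hcon
      push Not at hcon
      have h1 : ((A : Set (ℝ × ℝ)) ∩ I ×ˢ (⋃₀ (𝒦 : Set (Set ℝ)))).ncard ≤
          ∑ K ∈ 𝒦, ((A : Set (ℝ × ℝ)) ∩ I ×ˢ K).ncard := by
        have h2 : ((A : Set (ℝ × ℝ)) ∩ I ×ˢ (⋃₀ (𝒦 : Set (Set ℝ)))) ⊆
            ((𝒦.biUnion fun K => (hfin K).toFinset : Finset (ℝ × ℝ)) : Set (ℝ × ℝ)) := by
          rintro p ⟨hp, hpI, K, hK, hpK⟩
          refine mem_coe.2 (mem_biUnion.2 ⟨K, hK, ?_⟩)
          rw [Set.Finite.mem_toFinset]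
          exact ⟨hp, hpI, hpK⟩
        calc _ ≤ ((𝒦.biUnion fun K => (hfin K).toFinset : Finset (ℝ × ℝ)) : Set (ℝ × ℝ)).ncard :=
              Set.ncard_le_ncard h2 (finite_toSet _)
          _ = (𝒦.biUnion fun K => (hfin K).toFinset).card := Set.ncard_coe_finset _
          _ ≤ ∑ K ∈ 𝒦, (hfin K).toFinset.card := card_biUnion_le
          _ = ∑ K ∈ 𝒦, ((A : Set (ℝ × ℝ)) ∩ I ×ˢ K).ncard :=
              sum_congr rfl fun K _ => (Set.ncard_eq_toFinset_card _ (hfin K)).symm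
      have h3 : ∑ K ∈ 𝒦, ((A : Set (ℝ × ℝ)) ∩ I ×ˢ K).ncard ≤ ∑ _K ∈ 𝒦, (k' - 1) :=
        sum_le_sum fun K hK => by have := hcon K hK; omega
      rw [sum_const, smul_eq_mul] at h3
      have h4 : 𝒦.card * (k' - 1) ≤ r * (k' - 1) := Nat.mul_le_mul_right _ hcard
      have h5 := hk'3 (k' - 1) (by omega)
      omega
    obtain ⟨K, hK, hKm⟩ := hex
    obtain ⟨i, hi⟩ := h𝒦 K hK
    obtain ⟨p, hp, hpI, hpK⟩ := hA'2 i I hI K hi hKm
    exact ⟨p, mem_biUnion.2 ⟨i, mem_univ i, hp⟩, hpI, K, hK, hpK⟩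

end Pool.Agent.Work.MP_959bfa_co
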